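import Pool.Agent.Lib.MP_95cf14_ag.LI.Fin

/-!
# The real Jacobian conjecture when a component is constant or injective on each line of one direction

Let `p`, `q` be real polynomials in two variables whose Jacobian has no zero in the plane. If a nontrivial
combination `α p + β q` is, on each line of one direction, either constant or injective, then `(p, q)` is
injective.
-/

namespace Pool.Agent.Results.MP_95cf14_ag.ConstantOrInjectiveLines

open MvPolynomial Pool.Agent.Lib.MP_95cf14_ag.LC Pool.Agent.Lib.MP_95cf14_ag.LI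

theorem result (P : Fin 2 → MvPolynomial (Fin 2) ℝ)
    (hJ : ∀ v : Fin 2 → ℝ, eval v (jacobian P) ≠ 0)
    (h : ∃ (α β : ℝ) (e : Fin 2 → ℝ), (α ≠ 0 ∨ β ≠ 0) ∧ e ≠ 0 ∧
      ∀ v : Fin 2 → ℝ,
        (∀ t : ℝ, α * eval (v + t • e) (P 0) + β * eval (v + t • e) (P 1) =
          α * eval v (P 0) + β * eval v (P 1)) ∨
        Function.Injective fun t : ℝ =>
          α * eval (v + t • e) (P 0) + β * eval (v + t • e) (P 1)) :
    Function.Injective (planeMap P) := by
  obtain ⟨α, β, e, hαβ, he, h⟩ := h
  exact mainB P hJ α β e hαβ he h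

end Pool.Agent.Results.MP_95cf14_ag.ConstantOrInjectiveLines
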