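import Mathlib

/-!
# A polynomial map of the real plane of degree 13 with nowhere vanishing Jacobian, not injective

With `U = x (y^2 - 1) + 2 y` and `S = x U` we take
`p = U (S + y^2 + 9) - 4 y - 2 y^3` (degree 7) and
`q = - y (S^3 + 15 S^2 + 30 S) - 12 U S^2 + 4 y U^2 S + 18 U^3 + (810 + 300 y^2) U
     + 25 y^3 U^2 - 390 y - 380 y^3 + 40 y^7` (degree 13).
The Jacobian of `(p, q)` is a positive combination of squares without common real zero, and
`(p, q)` maps `(-3, 0)`, `(0, 0)` and `(3, 0)` to `(0, 0)`.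
-/

namespace Pool.Agent.Results.MP_95cf14_ag.DegreeThirteen

open MvPolynomial

/-- The map of the real plane defined by a pair of polynomials in two variables. -/
noncomputable def planeMap (P : Fin 2 → MvPolynomial (Fin 2) ℝ) :
    (Fin 2 → ℝ) → (Fin 2 → ℝ) :=
  fun v i => eval v (P i)

/-- The Jacobian determinant `p_x q_y - p_y q_x` of a pair `(p, q)` of polynomials. -/
noncomputable def jacobian (P : Fin 2 → MvPolynomial (Fin 2) ℝ) : MvPolynomial (Fin 2) ℝ :=
  pderiv 0 (P 0) * pderiv 1 (P 1) - pderiv 1 (P 0) * pderiv 0 (P 1)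

/-- The degree of a polynomial map of the plane. -/
noncomputable def mapDegree (P : Fin 2 → MvPolynomial (Fin 2) ℝ) : ℕ :=
  max (P 0).totalDegree (P 1).totalDegree

/-- A counterexample to the real Jacobian conjecture: the Jacobian vanishes at no real point,
and the map is not injective. -/
def IsCounterexample (P : Fin 2 → MvPolynomial (Fin 2) ℝ) : Prop :=
  (∀ v : Fin 2 → ℝ, eval v (jacobian P) ≠ 0) ∧ ¬ Function.Injective (planeMap P)

/-- The least degree of a counterexample to the real Jacobian conjecture. -/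
noncomputable def dMin : ℕ :=
  sInf {d : ℕ | ∃ P : Fin 2 → MvPolynomial (Fin 2) ℝ, IsCounterexample P ∧ mapDegree P = d}

/-- The value of the Jacobian, written with `U`, `S`. -/
noncomputable def jacVal (x y : ℝ) : ℝ :=
  let U := x * (y ^ 2 - 1) + 2 * y
  let Ux := y ^ 2 - 1
  let Uy := 2 * x * y + 2
  let S := x * U
  let Sx := U + x * Ux
  let Sy := x * Uy
  (Ux * (S + y ^ 2 + 9) + U * Sx) *
    (-(S ^ 3 + 15 * S ^ 2 + 30 * S) - y * (3 * S ^ 2 + 30 * S + 30) * Sy
      - 12 * (Uy * S ^ 2 + 2 * U * S * Sy) + 4 * U ^ 2 * S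
      + 4 * y * (2 * U * Uy * S + U ^ 2 * Sy) + 54 * U ^ 2 * Uy + 600 * y * U
      + (810 + 300 * y ^ 2) * Uy + 75 * y ^ 2 * U ^ 2 + 50 * y ^ 3 * U * Uy
      - 390 - 1140 * y ^ 2 + 280 * y ^ 6) -
  (Uy * (S + y ^ 2 + 9) + U * (Sy + 2 * y) - 4 - 6 * y ^ 2) *
    (-(y * (3 * S ^ 2 + 30 * S + 30) * Sx) - 12 * (Ux * S ^ 2 + 2 * U * S * Sx)
      + 4 * y * (2 * U * Ux * S + U ^ 2 * Sx) + 54 * U ^ 2 * Ux
      + (810 + 300 * y ^ 2) * Ux + 50 * y ^ 3 * U * Ux)

/-- The sum of squares part of the certificate. -/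
noncomputable def squares (x y : ℝ) : ℝ :=
  let U := x * (y ^ 2 - 1) + 2 * y
  let S := x * U
  1/23692  *  ((5923) * (y ^ 2 * (y ^ 2 - 1)) + (1917) * (y * U) + (299) * (y ^ 3 * U)
    + (358) * (U ^ 2) + (582) * (y * U * S) + (95) * (S ^ 2 + 10 * S + 10) + (663) *
    (y ^ 2 - 1)) ^ 2 +
  1/36422919892  *  ((1537351) * (y * U) + (2862157) * (y ^ 3 * U) + (563467) * (U ^
    2) + (874434) * (y * U * S) + (226572) * (S ^ 2 + 10 * S + 10) + (2460519) * (y ^
    2 - 1)) ^ 2 +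
  1/16584401557286676  *  ((2696912019) * (y ^ 3 * U) + (108869159) * (U ^ 2) +
    (451617826) * (y * U * S) + (138341733) * (S ^ 2 + 10 * S + 10) + (-391826538) *
    (y ^ 2 - 1)) ^ 2 +
  1/396696975588471932172  *  ((36773258897) * (U ^ 2) + (13089410878) * (y * U * S) +
    (1631594157) * (S ^ 2 + 10 * S + 10) + (175184057754) * (y ^ 2 - 1)) ^ 2 +
  1/15787384597245508615948  *  ((107329245971) * (y * U * S) + (22905366789) * (S ^ 2
    + 10 * S + 10) + (-68950522412) * (y ^ 2 - 1)) ^ 2 +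
  1/1158453040885884381603200  *  ((134918147240) * (S ^ 2 + 10 * S + 10) +
    (2757390495381) * (y ^ 2 - 1)) ^ 2 +
  1/5820400  *  ((145510) * (y * (y ^ 2 - 1)) + (26385) * (y ^ 3 * (y ^ 2 - 1)) +
    (-68860) * (y ^ 2 * U) + (14970) * (y * U ^ 2) + (2460) * (U * S) + (-2037) * (y *
    (S ^ 2 + 10 * S + 10)) + (36670) * U) ^ 2 +
  1/217343927520400  *  ((186708755) * (y ^ 3 * (y ^ 2 - 1)) + (-200913560) * (y ^ 2 *
    U) + (6999720) * (y * U ^ 2) + (-25786300) * (U * S) + (-18891138) * (y * (S ^ 2 +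
    10 * S + 10)) + (-36356790) * U) ^ 2 +
  1/542642350098745460480  *  ((181647330256) * (y ^ 2 * U) + (-6788210388) * (y * U ^
    2) + (27272378579) * (U * S) + (15646539924) * (y * (S ^ 2 + 10 * S + 10)) +
    (53106403164) * U) ^ 2 +
  1/27874658865120106296723200  *  ((7672741136860) * (y * U ^ 2) + (161814471977) *
    (U * S) + (611330322748) * (y * (S ^ 2 + 10 * S + 10)) + (-924848184980) * U) ^ 2 +
  1/797721684971484354582227420800  *  ((649801738666783) * (U * S) + (97870462424132)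
    * (y * (S ^ 2 + 10 * S + 10)) + (3083488816722040) * U) ^ 2 +
  69/165028299892008330697983462486800  *  ((634917891380999) * (y * (S ^ 2 + 10 * S +
    10)) + (882452260874970) * U) ^ 2

theorem squares_nonneg (x y : ℝ) : 0 ≤ squares x y := by
  unfold squares
  positivity

theorem jacVal_eq (x y : ℝ) :
    jacVal x y = squares x y + 48506505074909 / 10793451779200 * (y ^ 2 - 1) ^ 2 +
      4204900234791983 / 25396715655239960 * (x * (y ^ 2 - 1) + 2 * y) ^ 2 := by
  unfold squares jacVal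
  ring

theorem jacVal_pos (x y : ℝ) : 0 < jacVal x y := by
  rw [jacVal_eq]
  have h0 := squares_nonneg x y
  rcases eq_or_ne (y ^ 2 - 1) 0 with h | h
  · have h2 : y ^ 2 = 1 := by linarith
    have h3 : (x * (y ^ 2 - 1) + 2 * y) ^ 2 = 4 := by
      rw [h]; ring_nf; rw [h2]; norm_num
    rw [h3, h]
    linarith
  · have h1 : 0 < (y ^ 2 - 1) ^ 2 := by positivity
    have h2 : 0 ≤ (x * (y ^ 2 - 1) + 2 * y) ^ 2 := sq_nonneg _
    linarith

/-- The polynomial `U = x (y^2 - 1) + 2 y`. -/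
noncomputable def polyU : MvPolynomial (Fin 2) ℝ := X 0 * (X 1 ^ 2 - 1) + 2 * X 1

/-- The polynomial `S = x U`. -/
noncomputable def polyS : MvPolynomial (Fin 2) ℝ := X 0 * polyU

/-- The first component, of degree 7. -/
noncomputable def polyP : MvPolynomial (Fin 2) ℝ :=
  polyU * (polyS + X 1 ^ 2 + 9) - 4 * X 1 - 2 * X 1 ^ 3

/-- The second component, of degree 13. -/
noncomputable def polyQ : MvPolynomial (Fin 2) ℝ :=
  -(X 1 * (polyS ^ 3 + 15 * polyS ^ 2 + 30 * polyS)) - 12 * polyU * polyS ^ 2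
    + 4 * X 1 * polyU ^ 2 * polyS + 18 * polyU ^ 3 + (810 + 300 * X 1 ^ 2) * polyU
    + 25 * X 1 ^ 3 * polyU ^ 2 - 390 * X 1 - 380 * X 1 ^ 3 + 40 * X 1 ^ 7

/-- The polynomial map. -/
noncomputable def theMap : Fin 2 → MvPolynomial (Fin 2) ℝ := ![polyP, polyQ]

theorem pderiv_ofNat (i : Fin 2) (n : ℕ) [n.AtLeastTwo] :
    pderiv i (no_index (OfNat.ofNat n : MvPolynomial (Fin 2) ℝ)) = 0 := by
  have h : (OfNat.ofNat n : MvPolynomial (Fin 2) ℝ) = C (OfNat.ofNat n : ℝ) := by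
    rw [map_ofNat]
  rw [h, pderiv_C]

theorem pderiv_sq (i : Fin 2) (f : MvPolynomial (Fin 2) ℝ) :
    pderiv i (f ^ 2) = 2 * f * pderiv i f := by
  rw [pow_two, Derivation.leibniz]; simp only [smul_eq_mul]; ring

theorem pderiv_cube (i : Fin 2) (f : MvPolynomial (Fin 2) ℝ) :
    pderiv i (f ^ 3) = 3 * f ^ 2 * pderiv i f := by
  rw [pow_succ, Derivation.leibniz, pderiv_sq]; simp only [smul_eq_mul]; ring

theorem pderiv_seven (i : Fin 2) (f : MvPolynomial (Fin 2) ℝ) :
    pderiv i (f ^ 7) = 7 * f ^ 6 * pderiv i f := by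
  have h : f ^ 7 = f ^ 3 * f ^ 3 * f := by ring
  rw [h, Derivation.leibniz, Derivation.leibniz, pderiv_cube]; simp only [smul_eq_mul]; ring

theorem pderiv_mul' (i : Fin 2) (f g : MvPolynomial (Fin 2) ℝ) :
    pderiv i (f * g) = f * pderiv i g + g * pderiv i f := by
  rw [Derivation.leibniz]; simp only [smul_eq_mul]

theorem pderiv_one' (i : Fin 2) : pderiv i (1 : MvPolynomial (Fin 2) ℝ) = 0 := by
  rw [← C_1, pderiv_C]

theorem pderiv_polyU (i : Fin 2) : pderiv i polyU =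
    pderiv i (X 0) * (X 1 ^ 2 - 1) + (2 * X 0 * X 1 + 2) * pderiv i (X 1) := by
  rw [polyU, map_add, pderiv_mul', pderiv_mul', map_sub, pderiv_sq, pderiv_one', pderiv_ofNat]
  ring

theorem pderiv_polyS (i : Fin 2) : pderiv i polyS =
    pderiv i (X 0) * polyU + X 0 * pderiv i polyU := by
  rw [polyS, pderiv_mul']
  ring

theorem pderiv_polyP (i : Fin 2) : pderiv i polyP =
    pderiv i polyU * (polyS + X 1 ^ 2 + 9) + polyU * (pderiv i polyS + 2 * X 1 * pderiv i (X 1))
      - 4 * pderiv i (X 1) - 6 * X 1 ^ 2 * pderiv i (X 1) := by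
  simp only [polyP, map_sub, map_add, pderiv_mul', pderiv_sq, pderiv_cube, pderiv_ofNat]
  ring

theorem pderiv_polyQ (i : Fin 2) : pderiv i polyQ =
    -((polyS ^ 3 + 15 * polyS ^ 2 + 30 * polyS) * pderiv i (X 1))
      - X 1 * (3 * polyS ^ 2 + 30 * polyS + 30) * pderiv i polyS
      - 12 * (pderiv i polyU * polyS ^ 2 + 2 * polyU * polyS * pderiv i polyS)
      + 4 * polyU ^ 2 * polyS * pderiv i (X 1)
      + 4 * X 1 * (2 * polyU * pderiv i polyU * polyS + polyU ^ 2 * pderiv i polyS)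
      + 54 * polyU ^ 2 * pderiv i polyU + 600 * X 1 * polyU * pderiv i (X 1)
      + (810 + 300 * X 1 ^ 2) * pderiv i polyU + 75 * X 1 ^ 2 * polyU ^ 2 * pderiv i (X 1)
      + 50 * X 1 ^ 3 * polyU * pderiv i polyU - 390 * pderiv i (X 1)
      - 1140 * X 1 ^ 2 * pderiv i (X 1) + 280 * X 1 ^ 6 * pderiv i (X 1) := by
  simp only [polyQ, map_sub, map_add, map_neg, pderiv_mul', pderiv_sq, pderiv_cube, pderiv_seven,
    pderiv_ofNat]
  ring

theorem eval_jacobian (v : Fin 2 → ℝ) : eval v (jacobian theMap) = jacVal (v 0) (v 1) := by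
  have h01 : pderiv (0 : Fin 2) (X 1 : MvPolynomial (Fin 2) ℝ) = 0 :=
    pderiv_X_of_ne (by decide)
  have h10 : pderiv (1 : Fin 2) (X 0 : MvPolynomial (Fin 2) ℝ) = 0 :=
    pderiv_X_of_ne (by decide)
  simp only [jacobian, theMap, Matrix.cons_val_zero, Matrix.cons_val_one, pderiv_polyP,
    pderiv_polyQ, pderiv_polyS, pderiv_polyU, pderiv_X_self, h01, h10]
  simp only [polyS, polyU, map_add, map_sub, map_neg, map_mul, map_pow, eval_X, map_ofNat,
    map_one, map_zero, jacVal]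
  ring

theorem eval_polyP (v : Fin 2 → ℝ) : eval v polyP =
    (v 0 * (v 1 ^ 2 - 1) + 2 * v 1) *
      (v 0 * (v 0 * (v 1 ^ 2 - 1) + 2 * v 1) + v 1 ^ 2 + 9) - 4 * v 1 - 2 * v 1 ^ 3 := by
  simp only [polyP, polyS, polyU, map_add, map_sub, map_mul, map_pow, eval_X, map_ofNat, map_one]

theorem eval_polyQ (v : Fin 2 → ℝ) : eval v polyQ =
    -(v 1 * ((v 0 * (v 0 * (v 1 ^ 2 - 1) + 2 * v 1)) ^ 3 +
      15 * (v 0 * (v 0 * (v 1 ^ 2 - 1) + 2 * v 1)) ^ 2 +
      30 * (v 0 * (v 0 * (v 1 ^ 2 - 1) + 2 * v 1)))) -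
      12 * (v 0 * (v 1 ^ 2 - 1) + 2 * v 1) * (v 0 * (v 0 * (v 1 ^ 2 - 1) + 2 * v 1)) ^ 2 +
      4 * v 1 * (v 0 * (v 1 ^ 2 - 1) + 2 * v 1) ^ 2 *
        (v 0 * (v 0 * (v 1 ^ 2 - 1) + 2 * v 1)) +
      18 * (v 0 * (v 1 ^ 2 - 1) + 2 * v 1) ^ 3 +
      (810 + 300 * v 1 ^ 2) * (v 0 * (v 1 ^ 2 - 1) + 2 * v 1) +
      25 * v 1 ^ 3 * (v 0 * (v 1 ^ 2 - 1) + 2 * v 1) ^ 2 - 390 * v 1 - 380 * v 1 ^ 3 +
      40 * v 1 ^ 7 := by
  simp only [polyQ, polyS, polyU, map_add, map_sub, map_mul, map_pow, map_neg, eval_X, map_ofNat,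
    map_one]

theorem theMap_value (t : ℝ) (ht : t ^ 3 = 9 * t) : planeMap theMap ![t, 0] = ![0, 0] := by
  have hp : eval ![t, 0] polyP = 0 := by
    rw [eval_polyP]
    simp only [Matrix.cons_val_zero, Matrix.cons_val_one]
    linear_combination ht
  have hq : eval ![t, 0] polyQ = 0 := by
    rw [eval_polyQ]
    simp only [Matrix.cons_val_zero, Matrix.cons_val_one]
    linear_combination (12 * t ^ 2 + 90) * ht
  funext i
  fin_cases i
  · exact hp
  · exact hq

theorem theMap_values :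
    planeMap theMap ![-3, 0] = ![0, 0] ∧ planeMap theMap ![0, 0] = ![0, 0] ∧
      planeMap theMap ![3, 0] = ![0, 0] :=
  ⟨theMap_value _ (by norm_num), theMap_value _ (by norm_num), theMap_value _ (by norm_num)⟩

theorem isCounterexample_theMap : IsCounterexample theMap := by
  refine ⟨fun v => ?_, fun hinj => ?_⟩
  · rw [eval_jacobian]
    exact (jacVal_pos _ _).ne'
  · have h := hinj (theMap_values.1.trans theMap_values.2.2.symm)
    have h0 := congrFun h 0
    norm_num at h0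

theorem td_add {f g : MvPolynomial (Fin 2) ℝ} {n : ℕ} (hf : f.totalDegree ≤ n)
    (hg : g.totalDegree ≤ n) : (f + g).totalDegree ≤ n :=
  (totalDegree_add f g).trans (max_le hf hg)

theorem td_sub {f g : MvPolynomial (Fin 2) ℝ} {n : ℕ} (hf : f.totalDegree ≤ n)
    (hg : g.totalDegree ≤ n) : (f - g).totalDegree ≤ n :=
  (totalDegree_sub f g).trans (max_le hf hg)

theorem td_mul {f g : MvPolynomial (Fin 2) ℝ} (a b : ℕ) {n : ℕ} (hf : f.totalDegree ≤ a)
    (hg : g.totalDegree ≤ b) (h : a + b ≤ n) : (f * g).totalDegree ≤ n :=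
  (totalDegree_mul f g).trans ((Nat.add_le_add hf hg).trans h)

theorem td_pow {f : MvPolynomial (Fin 2) ℝ} (a k : ℕ) {n : ℕ} (hf : f.totalDegree ≤ a)
    (h : k * a ≤ n) : (f ^ k).totalDegree ≤ n :=
  (totalDegree_pow f k).trans ((Nat.mul_le_mul_left k hf).trans h)

theorem td_ofNat (n m : ℕ) [n.AtLeastTwo] :
    (OfNat.ofNat n : MvPolynomial (Fin 2) ℝ).totalDegree ≤ m := by
  have h : (OfNat.ofNat n : MvPolynomial (Fin 2) ℝ) = C (OfNat.ofNat n : ℝ) := by
    rw [map_ofNat]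
  rw [h, totalDegree_C]
  exact Nat.zero_le _

theorem td_X (i : Fin 2) {m : ℕ} (h : 1 ≤ m) :
    (X i : MvPolynomial (Fin 2) ℝ).totalDegree ≤ m := by
  rw [totalDegree_X]; exact h

theorem td_polyU : polyU.totalDegree ≤ 3 := by
  unfold polyU
  refine td_add (td_mul 1 2 (td_X _ le_rfl) (td_sub (td_pow 1 2 (td_X _ le_rfl) (by norm_num))
    ?_) (by norm_num)) (td_mul 0 1 (td_ofNat _ _) (td_X _ le_rfl) (by norm_num))
  rw [totalDegree_one]; exact Nat.zero_le _

theorem td_polyS : polyS.totalDegree ≤ 4 :=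
  td_mul 1 3 (td_X _ le_rfl) td_polyU (by norm_num)

theorem td_polyP : polyP.totalDegree ≤ 7 := by
  unfold polyP
  refine td_sub (td_sub (td_mul 3 4 td_polyU (td_add (td_add td_polyS ?_) (td_ofNat _ _))
    (by norm_num)) ?_) ?_
  · exact td_pow 1 2 (td_X _ le_rfl) (by norm_num)
  · exact td_mul 0 1 (td_ofNat _ _) (td_X _ le_rfl) (by norm_num)
  · exact td_mul 0 3 (td_ofNat _ _) (td_pow 1 3 (td_X _ le_rfl) (by norm_num)) (by norm_num)

theorem td_polyQ : polyQ.totalDegree ≤ 13 := by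
  unfold polyQ
  refine td_add (td_sub (td_sub (td_add (td_add (td_add (td_add (td_sub ?_ ?_) ?_) ?_) ?_) ?_)
    ?_) ?_) ?_
  · rw [totalDegree_neg]
    refine td_mul 1 12 (td_X _ le_rfl) (td_add (td_add ?_ ?_) ?_) (by norm_num)
    · exact td_pow 4 3 td_polyS (by norm_num)
    · exact td_mul 0 8 (td_ofNat _ _) (td_pow 4 2 td_polyS (by norm_num)) (by norm_num)
    · exact td_mul 0 4 (td_ofNat _ _) td_polyS (by norm_num)
  · exact td_mul 3 8 (td_mul 0 3 (td_ofNat _ _) td_polyU (by norm_num))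
      (td_pow 4 2 td_polyS (by norm_num)) (by norm_num)
  · exact td_mul 7 4 (td_mul 1 6 (td_mul 0 1 (td_ofNat _ _) (td_X _ le_rfl) (by norm_num))
      (td_pow 3 2 td_polyU (by norm_num)) (by norm_num)) td_polyS (by norm_num)
  · exact td_mul 0 9 (td_ofNat _ _) (td_pow 3 3 td_polyU (by norm_num)) (by norm_num)
  · exact td_mul 2 3 (td_add (td_ofNat _ _) (td_mul 0 2 (td_ofNat _ _)
      (td_pow 1 2 (td_X _ le_rfl) (by norm_num)) (by norm_num))) td_polyU (by norm_num)
  · exact td_mul 3 6 (td_mul 0 3 (td_ofNat _ _) (td_pow 1 3 (td_X _ le_rfl) (by norm_num))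
      (by norm_num)) (td_pow 3 2 td_polyU (by norm_num)) (by norm_num)
  · exact td_mul 0 1 (td_ofNat _ _) (td_X _ le_rfl) (by norm_num)
  · exact td_mul 0 3 (td_ofNat _ _) (td_pow 1 3 (td_X _ le_rfl) (by norm_num)) (by norm_num)
  · exact td_mul 0 7 (td_ofNat _ _) (td_pow 1 7 (td_X _ le_rfl) (by norm_num)) (by norm_num)

theorem totalDegree_polyP : polyP.totalDegree = 7 := by
  refine le_antisymm td_polyP ?_
  have h := aeval_natDegree_le polyP le_rfl (fun _ => (Polynomial.X : Polynomial ℝ)) (n := 1)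
    (fun _ => Polynomial.natDegree_X_le)
  have e : aeval (fun _ => (Polynomial.X : Polynomial ℝ)) polyP =
      Polynomial.X ^ 7 + 3 * Polynomial.X ^ 5 + 9 * Polynomial.X ^ 3 + 5 * Polynomial.X := by
    simp only [polyP, polyS, polyU, map_add, map_sub, map_mul, map_pow, aeval_X, map_ofNat,
      map_one]
    ring
  have hd : (Polynomial.X ^ 7 + 3 * Polynomial.X ^ 5 + 9 * Polynomial.X ^ 3 +
      5 * Polynomial.X : Polynomial ℝ).natDegree = 7 := by
    compute_degree!
  rw [e, hd] at h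
  omega

theorem totalDegree_polyQ : polyQ.totalDegree = 13 := by
  refine le_antisymm td_polyQ ?_
  have h := aeval_natDegree_le polyQ le_rfl (fun _ => (Polynomial.X : Polynomial ℝ)) (n := 1)
    (fun _ => Polynomial.natDegree_X_le)
  have e : aeval (fun _ => (Polynomial.X : Polynomial ℝ)) polyQ =
      -Polynomial.X ^ 13 - 11 * Polynomial.X ^ 11 + Polynomial.X ^ 9 + 89 * Polynomial.X ^ 7 +
        326 * Polynomial.X ^ 5 + 718 * Polynomial.X ^ 3 + 420 * Polynomial.X := by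
    simp only [polyQ, polyS, polyU, map_add, map_sub, map_mul, map_pow, map_neg, aeval_X,
      map_ofNat, map_one]
    ring
  have hd : (-Polynomial.X ^ 13 - 11 * Polynomial.X ^ 11 + Polynomial.X ^ 9 +
      89 * Polynomial.X ^ 7 + 326 * Polynomial.X ^ 5 + 718 * Polynomial.X ^ 3 +
      420 * Polynomial.X : Polynomial ℝ).natDegree = 13 := by
    compute_degree!
  rw [e, hd] at h
  omega

/-- There is a polynomial map of the real plane with components of degrees `7` and `13`, with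
everywhere positive Jacobian, which sends three distinct points to one point. Hence
`dMin ≤ 13`, and the conjecture that every polynomial map of degree at most `14` with nowhere
vanishing Jacobian is injective is false. -/
theorem result :
    (∃ P : Fin 2 → MvPolynomial (Fin 2) ℝ,
      (P 0).totalDegree = 7 ∧ (P 1).totalDegree = 13 ∧
      (∀ v : Fin 2 → ℝ, 0 < eval v (jacobian P)) ∧
      planeMap P ![-3, 0] = ![0, 0] ∧ planeMap P ![0, 0] = ![0, 0] ∧
      planeMap P ![3, 0] = ![0, 0]) ∧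
    dMin ≤ 13 ∧
    ¬ (∀ P : Fin 2 → MvPolynomial (Fin 2) ℝ, mapDegree P ≤ 14 →
        (∀ v : Fin 2 → ℝ, eval v (jacobian P) ≠ 0) → Function.Injective (planeMap P)) := by
  have hdeg : mapDegree theMap = 13 := by
    simp only [mapDegree, theMap, Matrix.cons_val_zero, Matrix.cons_val_one, totalDegree_polyP,
      totalDegree_polyQ]
    norm_num
  refine ⟨⟨theMap, totalDegree_polyP, totalDegree_polyQ, fun v => ?_, theMap_values⟩, ?_, ?_⟩
  · rw [eval_jacobian]
    exact jacVal_pos _ _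
  · exact Nat.sInf_le ⟨theMap, isCounterexample_theMap, hdeg⟩
  · intro h
    exact isCounterexample_theMap.2 (h theMap (by rw [hdeg]; norm_num)
      isCounterexample_theMap.1)

end Pool.Agent.Results.MP_95cf14_ag.DegreeThirteen
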