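import Pool.Agent.Lib.MP_95cf14_ag.LQ.Fin

/-!
# MP_95cf14_ag, Q1: Jacobian pairs with a component quadratic along a family of parallel lines

Partial result. A polynomial map of the real plane with nowhere vanishing Jacobian, one nontrivial
combination of whose components has degree at most two along every line of one direction, is
injective. Polynomials are over `Fin 2`; `jacobian` and `planeMap` are in `LC.Defs`.
-/

namespace Pool.Agent.Results.MP_95cf14_ag.QuadraticAlongLines

open MvPolynomial Pool.Agent.Lib.MP_95cf14_ag.LC Pool.Agent.Lib.MP_95cf14_ag.LQ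

theorem result (P : Fin 2 → MvPolynomial (Fin 2) ℝ)
    (hJ : ∀ v, eval v (jacobian P) ≠ 0)
    (h : ∃ (α β : ℝ) (e : Fin 2 → ℝ), (α ≠ 0 ∨ β ≠ 0) ∧ e ≠ 0 ∧
      ∀ v, ∃ s r : ℝ, ∀ t : ℝ,
        α * eval (v + t • e) (P 0) + β * eval (v + t • e) (P 1) =
          α * eval v (P 0) + β * eval v (P 1) + t * s + t ^ 2 * r) :
    Function.Injective (planeMap P) := by
  obtain ⟨α, β, e, hαβ, he, h⟩ := h
  exact mainF P hJ α β e hαβ he h

end Pool.Agent.Results.MP_95cf14_ag.QuadraticAlongLines
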